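import Pool.Agent.H78.S.T8

/-!
# Theorem S (MP_9d0bb7_lc): row AUF (definable groups of field automorphisms are trivial)
-/

set_option autoImplicit false

open Set Pool.Agent.H77.BC Pool.Agent.H78.S

namespace Pool.Agent.H16.S

theorem auf_conn {M : Type} {U : RU M} {G : Type} [Group G] [Cod M G] [DG U G] (N : Subgroup G)
    (hN : Conn U N) : Conn U (⊤ : Subgroup N) := by
  have hDN : DG U N := Pool.Agent.H77.KG.dgSub N hN.1
  refine ⟨Ful.full, fun L _ hL hr => ?_⟩
  have h1 : U.D ((L.map N.subtype : Subgroup G) : Set G) := (Pool.Agent.H77.KG.D_sub _).1 hL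
  have h2 : U.R ((⊤ : Subgroup N) : Set N) = U.R (N : Set G) := Pool.Agent.H77.KG.R_sub_univ
  have h3 : U.R (L : Set N) = U.R ((L.map N.subtype : Subgroup G) : Set G) :=
    Pool.Agent.H77.KG.R_sub _
  have h4 : L.map N.subtype ≤ N := Subgroup.map_subtype_le L
  have h5 := hN.2 _ h4 h1 (by rw [← h2, ← h3]; exact hr)
  rw [eq_top_iff]
  intro x _
  have h6 : x.1 ∈ L.map N.subtype := by rw [h5]; exact x.2
  obtain ⟨y, hy, hxy⟩ := h6
  have : y = x := Subtype.ext hxy
  rw [← this]; exact hy

theorem auf_df {M : Type} {U : RU M} {K : Type} [Field K] [Cod M K] [DF U K] (F : Subfield K)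
    (hF : U.D (F : Set K)) : DF U F := by
  have hf : Ful U {x : K // x ∈ F} := Pool.Agent.H77.KG.ful_sub hF
  have h0 : DFn U (fun x : {x : K // x ∈ F} => x.1) := Pool.Agent.H77.KG.DFn_sval' hF
  have h1 : DFn U (fun z : {x : K // x ∈ F} × {x : K // x ∈ F} => z.1.1) :=
    DFn_comp (g := fun x : {x : K // x ∈ F} => x.1) h0 DFn_fst
  have h2 : DFn U (fun z : {x : K // x ∈ F} × {x : K // x ∈ F} => z.2.1) :=
    DFn_comp (g := fun x : {x : K // x ∈ F} => x.1) h0 DFn_snd
  exact { toFul := hf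
          add := Pool.Agent.H77.KG.DFn_smk (p := fun x => x ∈ F) hF (DFn_add h1 h2)
          mul := Pool.Agent.H77.KG.DFn_smk (p := fun x => x ∈ F) hF (DFn_mul h1 h2) }

theorem pf_AUF (kAUT : Pool.Agent.H77.KG.T_AUT) (kCCE : Pool.Agent.H77.KG.T_CCE)
    (hMAC : T_MAC) : T_AUF := by
  intro M U K G _ _ _ _ _ _ _ α hα
  obtain ⟨hc, -, -, hidx, -⟩ := kCCE U (⊤ : Subgroup G) Ful.full
  obtain ⟨N, hN⟩ : ∃ N, N = Pool.Agent.H77.KG.cc U (⊤ : Subgroup G) := ⟨_, rfl⟩
  rw [← hN] at hc hidx
  have hDN : DG U N := Pool.Agent.H77.KG.dgSub N hc.1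
  have htriv : ∀ g ∈ N, ∀ x : K, α g x = x := by
    intro g hg x
    have h0 : DFn U (fun x : N => x.1) := Pool.Agent.H77.KG.DFn_sval' hc.1
    have h1 : DFn U (fun p : N × K => α p.1.1 p.2) :=
      DFn_comp (f := fun p : N × K => (p.1.1, p.2)) hα
        (DFn_pair (DFn_comp (g := fun x : N => x.1) h0 DFn_fst) DFn_snd)
    exact kAUT U (α.comp N.subtype) h1 (auf_conn N hc) ⟨g, hg⟩ x
  have hker : N ≤ α.ker := by
    intro g hg
    rw [MonoidHom.mem_ker]
    exact RingEquiv.ext fun x => htriv g hg x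
  have hfi : α.ker.index ≠ 0 := by
    have h1 : N.index ≠ 0 := by
      rw [← Subgroup.relIndex_top_right]; exact hidx
    intro h0
    have h2 := Subgroup.index_dvd_of_le hker
    rw [h0] at h2
    exact h1 (Nat.eq_zero_of_zero_dvd h2)
  have hfin : Finite α.range := by
    have h1 : Nat.card α.range ≠ 0 := by
      rw [← Subgroup.index_ker]; exact hfi
    exact Nat.finite_of_card_ne_zero h1
  letI act : MulSemiringAction α.range K := MulSemiringAction.compHom K α.range.subtype
  have hact : ∀ (a : α.range) (x : K), a • x = a.1 x := fun a x => rfl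
  obtain ⟨F, hF⟩ : ∃ F, F = FixedPoints.subfield α.range K := ⟨_, rfl⟩
  have hmem : ∀ x : K, x ∈ F ↔ ∀ g : G, α g x = x := by
    intro x
    rw [hF]
    constructor
    · intro h g
      exact h ⟨α g, ⟨g, rfl⟩⟩
    · rintro h ⟨a, g, rfl⟩
      exact h g
  have hfd : FiniteDimensional F K := by
    rw [hF]; infer_instance
  have hDF : U.D (F : Set K) := by
    have h1 : U.D {x : K | ∀ g : G, α g x = x} :=
      D_forall (p := fun (x : K) (g : G) => α g x = x)
        (D_eqf (DFn_comp (f := fun z : K × G => (z.2, z.1)) hα (DFn_pair DFn_snd DFn_fst))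
          DFn_fst)
    have h2 : (F : Set K) = {x : K | ∀ g : G, α g x = x} := by
      ext x; exact hmem x
    rw [h2]; exact h1
  have hdf : DF U F := auf_df F hDF
  have hinf : Infinite F := by
    rcases finite_or_infinite F with h | h
    · exfalso
      have : Finite K := Module.finite_of_finite F
      exact not_finite K
    · exact h
  have hac : IsAlgClosed F := hMAC U F
  have hsurj : Function.Surjective (algebraMap F K) :=
    IsAlgClosed.algebraMap_bijective_of_isIntegral.2
  intro g x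
  obtain ⟨y, hy⟩ := hsurj x
  have h1 : x ∈ F := by rw [← hy]; exact y.2
  exact (hmem x).1 h1 g

end Pool.Agent.H16.S
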