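import Pool.Agent.H78.S.T8

/-!
# Theorem S (MP_9d0bb7_lc): row LCD (the field of a line is definable in an extension)
-/

set_option autoImplicit false

open Set Pool.Agent.H77.BC Pool.Agent.H78.S

namespace Pool.Agent.H16.S

theorem lcd_op {M' : Type} {U' : RU M'} {S Q K : Type} [Cod M' S] [Cod M' Q] [Cod M' K]
    [Ful U' S] [Ful U' Q] [Ful U' K] (X : Set S) (f : S → K) (π : S → Q) (j : K → Q)
    (hπ : DFn U' π) (hj : DFn U' j) (hji : Function.Injective j) (hX : ∀ y ∈ X, π y = j (f y))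
    (onto : ∀ k : K, ∃ y ∈ X, f y = k) (op : K → K → K)
    (hA : U'.D {p : (S × S) × S | p.1.1 ∈ X ∧ p.1.2 ∈ X ∧ p.2 ∈ X ∧
      op (f p.1.1) (f p.1.2) = f p.2}) : DFn U' (fun p : K × K => op p.1 p.2) := by
  unfold DFn
  have h1 : U'.D {z : (K × K) × K | ∃ q : (S × S) × S, (q.1.1 ∈ X ∧ q.1.2 ∈ X ∧ q.2 ∈ X ∧
      op (f q.1.1) (f q.1.2) = f q.2) ∧ π q.1.1 = j z.1.1 ∧ π q.1.2 = j z.1.2 ∧ π q.2 = j z.2} := by
    refine D_exists (p := fun (z : (K × K) × K) (q : (S × S) × S) => (q.1.1 ∈ X ∧ q.1.2 ∈ X ∧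
      q.2 ∈ X ∧ op (f q.1.1) (f q.1.2) = f q.2) ∧ π q.1.1 = j z.1.1 ∧ π q.1.2 = j z.1.2 ∧
      π q.2 = j z.2) ?_
    have s1 : DFn U' (fun w : ((K × K) × K) × ((S × S) × S) => w.2) := DFn_snd
    have s2 : DFn U' (fun w : ((K × K) × K) × ((S × S) × S) => w.2.1) :=
      DFn_comp (g := fun w : (S × S) × S => w.1) DFn_fst s1
    have s3 : DFn U' (fun w : ((K × K) × K) × ((S × S) × S) => w.2.1.1) :=
      DFn_comp (g := fun w : S × S => w.1) DFn_fst s2
    have s4 : DFn U' (fun w : ((K × K) × K) × ((S × S) × S) => w.2.1.2) :=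
      DFn_comp (g := fun w : S × S => w.2) DFn_snd s2
    have s5 : DFn U' (fun w : ((K × K) × K) × ((S × S) × S) => w.2.2) :=
      DFn_comp (g := fun w : (S × S) × S => w.2) DFn_snd s1
    have t1 : DFn U' (fun w : ((K × K) × K) × ((S × S) × S) => w.1) := DFn_fst
    have t2 : DFn U' (fun w : ((K × K) × K) × ((S × S) × S) => w.1.1) :=
      DFn_comp (g := fun w : (K × K) × K => w.1) DFn_fst t1
    have t3 : DFn U' (fun w : ((K × K) × K) × ((S × S) × S) => w.1.1.1) :=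
      DFn_comp (g := fun w : K × K => w.1) DFn_fst t2
    have t4 : DFn U' (fun w : ((K × K) × K) × ((S × S) × S) => w.1.1.2) :=
      DFn_comp (g := fun w : K × K => w.2) DFn_snd t2
    have t5 : DFn U' (fun w : ((K × K) × K) × ((S × S) × S) => w.1.2) :=
      DFn_comp (g := fun w : (K × K) × K => w.2) DFn_snd t1
    refine D_and ?_ (D_and ?_ (D_and ?_ ?_))
    · exact DFn_preim s1 hA
    · exact D_eqf (DFn_comp hπ s3) (DFn_comp hj t3)
    · exact D_eqf (DFn_comp hπ s4) (DFn_comp hj t4)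
    · exact D_eqf (DFn_comp hπ s5) (DFn_comp hj t5)
  have h2 : {z : (K × K) × K | z.2 = op z.1.1 z.1.2} =
      {z : (K × K) × K | ∃ q : (S × S) × S, (q.1.1 ∈ X ∧ q.1.2 ∈ X ∧ q.2 ∈ X ∧
      op (f q.1.1) (f q.1.2) = f q.2) ∧ π q.1.1 = j z.1.1 ∧ π q.1.2 = j z.1.2 ∧
      π q.2 = j z.2} := by
    ext z
    constructor
    · intro hz
      have hz' : z.2 = op z.1.1 z.1.2 := hz
      obtain ⟨a, ha, ha'⟩ := onto z.1.1
      obtain ⟨b, hb, hb'⟩ := onto z.1.2
      obtain ⟨c, hc, hc'⟩ := onto z.2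
      refine ⟨((a, b), c), ⟨ha, hb, hc, ?_⟩, ?_, ?_, ?_⟩
      · change op (f a) (f b) = f c
        rw [ha', hb', hc', hz']
      · change π a = j z.1.1
        rw [hX a ha, ha']
      · change π b = j z.1.2
        rw [hX b hb, hb']
      · change π c = j z.2
        rw [hX c hc, hc']
    · rintro ⟨q, ⟨ha, hb, hc, he⟩, h1, h2, h3⟩
      rw [hX _ ha] at h1
      rw [hX _ hb] at h2
      rw [hX _ hc] at h3
      have e1 := hji h1
      have e2 := hji h2
      have e3 := hji h3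
      change z.2 = op z.1.1 z.1.2
      rw [← e1, ← e2, ← e3, he]
  rw [h2]; exact h1

theorem pf_LCD (hCTB : T_CTB) (kQTY : Pool.Agent.H77.KG.T_QTY) (kEXA : Pool.Agent.H77.KG.T_EXA)
    (kEXB : Pool.Agent.H77.KG.T_EXB) : T_LCD := by
  intro C hC M U hU G S _ _ _ _ _ _ hact H X T o e hctx E L
  have hXD : U.D X := (hCTB U hact H X T o e hctx).2.1
  obtain ⟨sec, hsec⟩ := Classical.axiomOfChoice L.line.onto
  have hsX : ∀ k, sec k ∈ X := fun k => (hsec k).1
  have hsf : ∀ k, L.f (sec k) = k := fun k => (hsec k).2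
  obtain ⟨E', hE'⟩ : ∃ E' : Setoid S, ∀ y z, E'.r y z ↔ (y = z ∨
      (y ∈ X ∧ z ∈ X ∧ L.f y = L.f z)) :=
    ⟨{ r := fun y z => y = z ∨ (y ∈ X ∧ z ∈ X ∧ L.f y = L.f z)
       iseqv := {
        refl := fun y => Or.inl rfl
        symm := by
          rintro y z (h | ⟨h1, h2, h3⟩)
          · exact Or.inl h.symm
          · exact Or.inr ⟨h2, h1, h3.symm⟩
        trans := by
          rintro x y z (h | ⟨h1, h2, h3⟩) (h' | ⟨h1', h2', h3'⟩)
          · exact Or.inl (h.trans h')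
          · rw [h]; exact Or.inr ⟨h1', h2', h3'⟩
          · rw [← h']; exact Or.inr ⟨h1, h2, h3⟩
          · exact Or.inr ⟨h1, h2', h3.trans h3'⟩ } }, fun y z => Iff.rfl⟩
  have hED : U.D {z : S × S | E'.r z.1 z.2} := by
    have h1 : U.D {z : S × S | z.1 = z.2 ∨ z ∈ Rel X L.f} := D_or D_eqp L.line.rel
    have h2 : {z : S × S | E'.r z.1 z.2} = {z : S × S | z.1 = z.2 ∨ z ∈ Rel X L.f} := by
      ext z; exact hE' z.1 z.2
    rw [h2]; exact h1
  obtain ⟨M', U', e0, h, c', hU', hfq, hdq⟩ := kQTY C hC U hU E' hED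
  letI cS : Cod M' S := Pool.Agent.H77.KG.codE h.inj
  have hfS : Ful U' S := (kEXB U U' e0 h).1
  obtain ⟨j, hj⟩ : ∃ j : L.K → Quotient E', ∀ k, j k = Quotient.mk E' (sec k) :=
    ⟨fun k => Quotient.mk E' (sec k), fun _ => rfl⟩
  have hji : Function.Injective j := by
    intro k l hkl
    rw [hj, hj] at hkl
    have h1 : E'.r (sec k) (sec l) := Quotient.exact hkl
    rcases (hE' _ _).1 h1 with h2 | ⟨-, -, h2⟩
    · rw [← hsf k, ← hsf l, h2]
    · rw [hsf, hsf] at h2; exact h2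
  have hX : ∀ y ∈ X, Quotient.mk E' y = j (L.f y) := by
    intro y hy
    rw [hj]
    exact Quotient.sound ((hE' _ _).2 (Or.inr ⟨hy, hsX _, (hsf _).symm⟩))
  letI c : Cod M' L.K := ⟨Cod.ι M' (Quotient E'), inferInstance, fun k => Cod.c (j k),
    fun _ _ h => hji (Cod.inj (M := M') h)⟩
  have hSame := kEXA U U' e0 h (α := S) (β := S) (γ := S)
  have hXD' : U'.D X := (hSame.1.D X).2 hXD
  have hful : Ful U' L.K := ⟨by
    have h1 : Cod.c (M := M') '' (univ : Set L.K) =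
        Cod.c (M := M') '' ((fun y => Quotient.mk E' y) '' X) := by
      have h2 : Cod.c (M := M') '' (univ : Set L.K) =
          Cod.c (M := M') '' ((fun k : L.K => j k) '' (univ : Set L.K)) := by
        rw [image_image]; rfl
      have h3 : (fun k : L.K => j k) '' (univ : Set L.K) = (fun y => Quotient.mk E' y) '' X := by
        ext q
        constructor
        · rintro ⟨k, -, rfl⟩
          exact ⟨sec k, hsX k, (hj k).symm⟩
        · rintro ⟨y, hy, rfl⟩
          exact ⟨L.f y, mem_univ _, (hX y hy).symm⟩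
      rw [h2, h3]
    have h4 : U'.D ((fun y => Quotient.mk E' y) '' X) := DFn_image hdq hXD'
    have h5 : U'.Def (Cod.ι M' (Quotient E'))
      (Cod.c (M := M') '' ((fun y => Quotient.mk E' y) '' X)) := h4
    rw [← h1] at h5
    exact h5⟩
  have hjd : DFn U' j := DFn_of_code id fun _ => rfl
  have hop : ∀ op : L.K → L.K → L.K, U.D {p : S × S × S | p.1 ∈ X ∧ p.2.1 ∈ X ∧ p.2.2 ∈ X ∧
      op (L.f p.1) (L.f p.2.1) = L.f p.2.2} → DFn U' (fun p : L.K × L.K => op p.1 p.2) := by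
    intro op hA
    have hA1 := D_assoc hA
    have hA2 := (hSame.2.2.1.D _).2 hA1
    exact lcd_op X L.f (fun y => Quotient.mk E' y) j hdq hjd hji hX L.line.onto op hA2
  refine ⟨M', U', e0, h, c, hU', ?_, ?_⟩
  · exact { toFul := hful
            add := hop (fun a b => a + b) L.line.add
            mul := hop (fun a b => a * b) L.line.mul }
  · have h1 : U'.D {p : S × L.K | p.1 ∈ X ∧ Quotient.mk E' p.1 = j p.2} :=
      D_and (DFn_preim DFn_fst hXD')
        (D_eqf (DFn_comp (g := fun y => Quotient.mk E' y) hdq DFn_fst) (DFn_comp hjd DFn_snd))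
    have h2 : {p : S × L.K | p.1 ∈ X ∧ p.2 = L.f p.1} =
        {p : S × L.K | p.1 ∈ X ∧ Quotient.mk E' p.1 = j p.2} := by
      ext p
      constructor
      · rintro ⟨h1, h2⟩
        refine ⟨h1, ?_⟩
        rw [h2, hX _ h1]
      · rintro ⟨h1, h2⟩
        refine ⟨h1, ?_⟩
        rw [hX _ h1] at h2
        exact (hji h2).symm
    rw [h2]; exact h1

end Pool.Agent.H16.S
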