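import Pool.Agent.H78.S.T8

/-!
# Theorem S (MP_9d0bb7_lc): row LEX
-/

set_option autoImplicit false

open Set Pool.Agent.H77.BC Pool.Agent.H78.S

namespace Pool.Agent.H16.S

theorem pf_LEX (hSBX : T_SBX) (hLXI : T_LXI) : T_LEX := by
  intro C hC M U hU G S _ _ _ _ _ _ hact H X T o e hctx hsol
  obtain ⟨G', S', i1, i2, i3, i4, T', o', e', h1, h2, h3, h4, h5, h6⟩ :=
    hSBX U hact H X T o e hctx
  exact h5 (hLXI C hC (U.R (univ : Set S')) U hU h3 (h6 hsol) le_rfl T' o' e' h4)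

end Pool.Agent.H16.S
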