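import Pool.Agent.H78.S.T8

/-!
# Theorem S (MP_9d0bb7_lc): row MCB (finite extensions of definable fields are definable)
-/

set_option autoImplicit false

open Set Pool.Agent.H77.BC Pool.Agent.H78.S

namespace Pool.Agent.H16.S

theorem mcb_mul {K L : Type} [Field K] [Field L] [Algebra K L] {n : ℕ}
    (b : Module.Basis (Fin n) K L) (x y : L) :
    x * y = b.equivFun.symm (fun k => ∑ i, ∑ j,
      b.equivFun x i * b.equivFun y j * b.equivFun (b i * b j) k) := by
  apply b.equivFun.injective
  rw [LinearEquiv.apply_symm_apply]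
  have hx := b.sum_equivFun x
  have hy := b.sum_equivFun y
  have h1 : x * y = ∑ i, ∑ j, (b.equivFun x i * b.equivFun y j) • (b i * b j) := by
    calc x * y = (∑ i, b.equivFun x i • b i) * (∑ j, b.equivFun y j • b j) := by rw [hx, hy]
      _ = ∑ i, ∑ j, (b.equivFun x i * b.equivFun y j) • (b i * b j) := by
        rw [Finset.sum_mul_sum]
        simp only [smul_mul_smul_comm]
  funext k
  calc b.equivFun (x * y) k
      = b.equivFun (∑ i, ∑ j, (b.equivFun x i * b.equivFun y j) • (b i * b j)) k := by rw [← h1]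
    _ = ∑ i, ∑ j, b.equivFun x i * b.equivFun y j * b.equivFun (b i * b j) k := by
      simp only [map_sum, map_smul, Finset.sum_apply, Pi.smul_apply, smul_eq_mul]

theorem pf_MCB : T_MCB := by
  intro M U K L _ _ _ _ _ _
  obtain ⟨n, ⟨b⟩⟩ : ∃ n : ℕ, Nonempty (Module.Basis (Fin n) K L) :=
    ⟨_, ⟨Module.finBasis K L⟩⟩
  letI c : Cod M L := ⟨Cod.ι M (Fin n → K), inferInstance, fun l => Cod.c (b.equivFun l),
    fun _ _ h => b.equivFun.injective (Cod.inj (M := M) h)⟩
  have hful : Ful U L := ⟨by
    have h1 : Cod.c (M := M) '' (univ : Set L) = Cod.c (M := M) '' (univ : Set (Fin n → K)) := by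
      have h2 : Cod.c (M := M) '' (univ : Set L) =
          Cod.c (M := M) '' ((fun l : L => b.equivFun l) '' (univ : Set L)) := by
        rw [image_image]; rfl
      rw [h2, image_univ_of_surjective b.equivFun.surjective]
    have h3 : U.Def (Cod.ι M (Fin n → K)) (Cod.c (M := M) '' (univ : Set (Fin n → K))) :=
      Ful.full (U := U) (α := Fin n → K)
    rw [← h1] at h3
    exact h3⟩
  have f1 : DFn U (fun l : L => b.equivFun l) := DFn_of_code id fun _ => rfl
  have f2 : DFn U (fun v : Fin n → K => b.equivFun.symm v) := DFn_of_code id fun v => by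
    show Cod.c (M := M) (b.equivFun (b.equivFun.symm v)) = _
    rw [LinearEquiv.apply_symm_apply]; rfl
  have g1 : DFn U (fun p : L × L => b.equivFun p.1) := DFn_comp f1 DFn_fst
  have g2 : DFn U (fun p : L × L => b.equivFun p.2) := DFn_comp f1 DFn_snd
  refine ⟨c, ?_⟩
  refine { toFul := hful, add := ?_, mul := ?_ }
  · have h : DFn U (fun p : L × L => b.equivFun.symm (b.equivFun p.1 + b.equivFun p.2)) :=
      DFn_comp f2 (DFn_vadd g1 g2)
    have e : (fun p : L × L => p.1 + p.2) =
        fun p : L × L => b.equivFun.symm (b.equivFun p.1 + b.equivFun p.2) := by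
      funext p
      rw [← map_add, LinearEquiv.symm_apply_apply]
    rw [e]; exact h
  · have h : DFn U (fun p : L × L => b.equivFun.symm (fun k => ∑ i, ∑ j,
        b.equivFun p.1 i * b.equivFun p.2 j * b.equivFun (b i * b j) k)) := by
      refine DFn_comp f2 (DFn_vec fun k => ?_)
      refine DFn_sum _ fun i _ => DFn_sum _ fun j _ => ?_
      exact DFn_mul (DFn_mul (DFn_comp (DFn_apply i) g1) (DFn_comp (DFn_apply j) g2)) (DFn_const _)
    have e : (fun p : L × L => p.1 * p.2) =
        fun p : L × L => b.equivFun.symm (fun k => ∑ i, ∑ j,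
        b.equivFun p.1 i * b.equivFun p.2 j * b.equivFun (b i * b j) k) := by
      funext p
      exact mcb_mul b p.1 p.2
    rw [e]; exact h

end Pool.Agent.H16.S
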