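import Pool.Agent.H78.S.T8

/-!
# Theorem S (MP_9d0bb7_lc): row QCX (quotients of the situation of a line)
-/

set_option autoImplicit false

open Set Pool.Agent.H77.BC Pool.Agent.H78.S

namespace Pool.Agent.H16.S

section

variable {M M' : Type} {U : RU M} {U' : RU M'}

theorem qcx_big {α : Type} [Cod M α] [Cod M' α] (hs : Pool.Agent.H77.KG.Same U U' α)
    {A X : Set α} (hA : U.D A) (hne : A.Nonempty) (hb : Big U A X) : Big U' A X := by
  obtain ⟨Y, h1, h2, h3, h4, h5⟩ := hb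
  refine ⟨Y, (hs.D Y).2 h1, h2, h3, h4, ?_⟩
  rw [hs.R A hA hne, hs.R Y h1 h2]; exact h5

theorem big_mono' {α : Type} [Cod M α] {A X Y : Set α} (h : X ⊆ Y) (hb : Big U A X) :
    Big U A Y := by
  obtain ⟨Z, h1, h2, h3, h4, h5⟩ := hb
  exact ⟨Z, h1, h2, h3, h4.trans h, h5⟩

theorem D_assoc' {α β γ : Type} [Cod M α] [Cod M β] [Cod M γ] [Ful U α] [Ful U β] [Ful U γ]
    {Z : Set ((α × β) × γ)} (hZ : U.D Z) : U.D {p : α × β × γ | ((p.1, p.2.1), p.2.2) ∈ Z} := by
  have s1 : DFn U (fun p : α × β × γ => p.2.1) :=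
    DFn_comp (g := fun w : β × γ => w.1) DFn_fst DFn_snd
  have s2 : DFn U (fun p : α × β × γ => p.2.2) :=
    DFn_comp (g := fun w : β × γ => w.2) DFn_snd DFn_snd
  exact DFn_preim (f := fun p : α × β × γ => ((p.1, p.2.1), p.2.2))
    (DFn_pair (DFn_pair DFn_fst s1) s2) hZ

end

theorem pf_QCX (kEXA : Pool.Agent.H77.KG.T_EXA) (kEXB : Pool.Agent.H77.KG.T_EXB)
    (kHMI : Pool.Agent.H77.KG.T_HMI) (hCCA : T_CCA) (hCCB : T_CCB) (hIRI : T_IRI)
    (hORB : T_ORB) (hCTB : T_CTB) (hBGA : T_BGA) : T_QCX := by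
  intro M M' U U' e0 h G S G' S' _ _ _ _ _ _ cG cS _ _ _ _ p q hact hact' hqt hinf T o e hctx
  letI cGM : Cod M' G := Pool.Agent.H77.KG.codE h.inj
  letI cSM : Cod M' S := Pool.Agent.H77.KG.codE h.inj
  have hSG : Pool.Agent.H77.KG.Same U U' G := (kEXA U U' e0 h (α := G) (β := G) (γ := G)).1
  have hSS := kEXA U U' e0 h (α := S) (β := S) (γ := S)
  have hSS1 : Pool.Agent.H77.KG.Same U U' S := hSS.1
  have hSS2 : Pool.Agent.H77.KG.Same U U' (S × S) := hSS.2.1
  have hSS3 : Pool.Agent.H77.KG.Same U U' ((S × S) × S) := hSS.2.2.1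
  have hSGS : Pool.Agent.H77.KG.Same U U' (G × S) :=
    (kEXA U U' e0 h (α := G) (β := S) (γ := S)).2.1
  have hDG : DG U' G := (kEXB U U' e0 h).2.2.1
  have hFS : Ful U' S := (kEXB U U' e0 h).1
  have hDA : Pool.Agent.H77.KG.DA U G S := ⟨hact⟩
  have hDA' : Pool.Agent.H77.KG.DA U' G S := (kEXB U U' e0 h).2.2.2.2
  have hactU' : DFn U' (fun p : G × S => p.1 • p.2) := hDA'.act
  have hpd : DFn U' (fun g => p g) := hqt.dp
  have hqd : DFn U' q := hqt.dq
  have hps : Function.Surjective p := hqt.sp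
  have hqs : Function.Surjective q := hqt.sq
  have hpq : ∀ g x, q (g • x) = p g • q x := hqt.eqv
  obtain ⟨hH1, hH2⟩ := kHMI U' p hpd
  -- connectedness
  have hcU' : Conn U' (⊤ : Subgroup G) := (hSG.conn _).2 hctx.conn
  have hcG' : Conn U' (⊤ : Subgroup G') := by
    have h1 := (hH1 ⊤ hcU'.1).2.2 hcU'
    rw [Subgroup.map_top_of_surjective p hps] at h1
    exact h1
  have horb : ∀ y : S, ∃ g : G, y = g • o := by
    intro y
    have h1 : y ∈ Orb (⊤ : Subgroup G) o := by rw [← hctx.orb]; exact mem_univ y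
    obtain ⟨g, -, hg⟩ := h1
    exact ⟨g, hg⟩
  have horb' : (univ : Set S') = Orb (⊤ : Subgroup G') (q o) := by
    refine (eq_univ_of_forall fun y' => ?_).symm
    obtain ⟨y, rfl⟩ := hqs y'
    obtain ⟨g, rfl⟩ := horb y
    exact ⟨p g, Subgroup.mem_top _, hpq g o⟩
  -- irreducibility
  have hirr : Irr U' (univ : Set S) := by
    have h1 := ((hORB U' hactU' (⊤ : Subgroup G) o hcU'.1).2.2.2 hcU').1
    rw [← hctx.orb] at h1
    exact h1
  -- fibres
  obtain ⟨m, hm⟩ : ∃ m, m = U'.R {z : S | q z = q o} := ⟨_, rfl⟩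
  have hDfib : ∀ b : S', U'.D {z : S | q z = b} := fun b => D_eqf hqd (DFn_const b)
  have hfib : ∀ b ∈ q '' (univ : Set S), U'.R {a | a ∈ (univ : Set S) ∧ q a = b} = m := by
    rintro b ⟨y, -, rfl⟩
    obtain ⟨g, rfl⟩ := horb y
    have h1 : {a | a ∈ (univ : Set S) ∧ q a = q (g • o)} =
        (fun z : S => g • z) '' {z : S | q z = q o} := by
      ext a
      constructor
      · rintro ⟨-, ha⟩
        refine ⟨g⁻¹ • a, ?_, smul_inv_smul g a⟩
        change q (g⁻¹ • a) = q o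
        rw [hpq, ha, hpq, ← mul_smul, ← map_mul, inv_mul_cancel, map_one, one_smul]
      · rintro ⟨z, hz, rfl⟩
        refine ⟨mem_univ _, ?_⟩
        have hz' : q z = q o := hz
        change q (g • z) = q (g • o)
        rw [hpq, hpq, hz']
    have hg : DFn U' (fun z : S => g • z) :=
      DFn_comp (g := fun p : G × S => p.1 • p.2) (f := fun z : S => (g, z)) hactU'
        (DFn_pair (DFn_const g) DFn_id)
    rw [h1, hm]
    exact (l_RKB U').inj (hDfib (q o)) hg ⟨o, rfl⟩ ((MulAction.injective g).injOn)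
  have himg : q '' (univ : Set S) = univ := image_univ_of_surjective hqs
  have hI := hIRI U' (univ : Set S) q m hirr hqd hfib
  rw [himg] at hI
  have hSne : (univ : Set S).Nonempty := ⟨o, mem_univ o⟩
  have hrk : U'.R (univ : Set S) = U'.R (univ : Set S') + m := by
    have h1 := (l_RKB U').fib_eq (X := (univ : Set S)) (f := q) (n := m) Ful.full hqd hSne hfib
    rw [himg] at h1
    exact h1
  have hrk0 : U'.R (univ : Set S) = U.R (univ : Set S) := hSS1.R _ Ful.full hSne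
  have hpos : 1 ≤ U'.R (univ : Set S') := by
    rcases Nat.eq_zero_or_pos (U'.R (univ : Set S')) with h0 | h0
    · exfalso
      have h1 := ((l_RKA U').fin (X := (univ : Set S')) Ful.full ⟨q o, mem_univ _⟩).1 h0
      exact infinite_univ h1
    · exact h0
  -- the point stabilisers
  have hctb := hCTB U hact (⊤ : Subgroup G) univ T o e hctx
  have hTc : Conn U T := hctb.2.2.2.2.2.1
  have hTo : ∀ t ∈ T, t • o = o := hctb.2.2.2.2.2.2.2.1
  have hTc' : Conn U' T := (hSG.conn T).2 hTc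
  have hTm : Conn U' (T.map p) := (hH1 T hTc'.1).2.2 hTc'
  have hFxD : U'.D ((Fx (⊤ : Subgroup G') (q o) : Subgroup G') : Set G') :=
    (hORB U' hact' (⊤ : Subgroup G') (q o) hcG'.1).2.1
  have hTmF : T.map p ≤ Fx (⊤ : Subgroup G') (q o) := by
    rintro x ⟨t, ht, rfl⟩
    refine ⟨Subgroup.mem_top _, ?_⟩
    change p t • q o = q o
    rw [← hpq, hTo t ht]
  have hTle : T.map p ≤ cc U' (Fx (⊤ : Subgroup G') (q o)) :=
    (hCCB U' (Fx (⊤ : Subgroup G') (q o)) (T.map p) hFxD hTm hTmF).1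
  have hgen : Big U' (univ : Set S') (Orb (cc U' (Fx (⊤ : Subgroup G') (q o))) (q e)) := by
    have h1 : Big U' (univ : Set S) (Orb T e) :=
      qcx_big hSS1 Ful.full hSne hctx.gen
    refine big_mono' ?_ (hI.2.1 _ h1)
    rintro y' ⟨y, ⟨t, ht, rfl⟩, rfl⟩
    exact ⟨p t, hTle ⟨t, ht, rfl⟩, hpq t e⟩
  refine ⟨⟨hcG', horb', rfl, mem_univ _, hgen, hpos⟩, ?_, ?_, ?_, ?_, ?_⟩
  · -- lines
    rintro ⟨E', ⟨L'⟩⟩
    refine ⟨Rel univ (fun y => L'.f (q y)), ⟨{
      K := L'.K
      fld := L'.fld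
      f := fun y => L'.f (q y)
      line := ?_
      eq := rfl }⟩⟩
    have hq1 : DFn U' (fun z : S × S => q z.1) := DFn_comp (g := q) hqd DFn_fst
    have hq2 : DFn U' (fun z : S × S => q z.2) := DFn_comp (g := q) hqd DFn_snd
    have hop : ∀ op : L'.K → L'.K → L'.K, U'.D {p : S' × S' × S' | p.1 ∈ (univ : Set S') ∧
        p.2.1 ∈ (univ : Set S') ∧ p.2.2 ∈ (univ : Set S') ∧
        op (L'.f p.1) (L'.f p.2.1) = L'.f p.2.2} →
        U.D {p : S × S × S | p.1 ∈ (univ : Set S) ∧ p.2.1 ∈ (univ : Set S) ∧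
          p.2.2 ∈ (univ : Set S) ∧ op (L'.f (q p.1)) (L'.f (q p.2.1)) = L'.f (q p.2.2)} := by
      intro op hA
      have s0 : DFn U' (fun w : (S × S) × S => w.1) := DFn_fst
      have s1 : DFn U' (fun w : (S × S) × S => q w.1.1) :=
        DFn_comp (g := fun z : S × S => q z.1) hq1 s0
      have s2 : DFn U' (fun w : (S × S) × S => q w.1.2) :=
        DFn_comp (g := fun z : S × S => q z.2) hq2 s0
      have s3 : DFn U' (fun w : (S × S) × S => q w.2) := DFn_comp (g := q) hqd DFn_snd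
      have h1 : U'.D {w : (S × S) × S | (q w.1.1, q w.1.2, q w.2) ∈ {p : S' × S' × S' |
          p.1 ∈ (univ : Set S') ∧ p.2.1 ∈ (univ : Set S') ∧ p.2.2 ∈ (univ : Set S') ∧
          op (L'.f p.1) (L'.f p.2.1) = L'.f p.2.2}} :=
        DFn_preim (f := fun w : (S × S) × S => (q w.1.1, q w.1.2, q w.2))
          (DFn_pair s1 (DFn_pair s2 s3)) hA
      have h2 := (hSS3.D _).1 h1
      have h3 := D_assoc' h2
      have h4 : {p : S × S × S | p.1 ∈ (univ : Set S) ∧ p.2.1 ∈ (univ : Set S) ∧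
          p.2.2 ∈ (univ : Set S) ∧ op (L'.f (q p.1)) (L'.f (q p.2.1)) = L'.f (q p.2.2)} =
          {p : S × S × S | ((p.1, p.2.1), p.2.2) ∈ {w : (S × S) × S | (q w.1.1, q w.1.2, q w.2) ∈
          {p : S' × S' × S' |
          p.1 ∈ (univ : Set S') ∧ p.2.1 ∈ (univ : Set S') ∧ p.2.2 ∈ (univ : Set S') ∧
          op (L'.f p.1) (L'.f p.2.1) = L'.f p.2.2}}} := by
        ext w
        exact ⟨fun hw => ⟨mem_univ _, mem_univ _, mem_univ _, hw.2.2.2⟩,
          fun hw => ⟨mem_univ _, mem_univ _, mem_univ _, hw.2.2.2⟩⟩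
      rw [h4]; exact h3
    exact {
      inf := L'.line.inf
      rel := by
        have h1 : U'.D {z : S × S | (q z.1, q z.2) ∈ Rel (univ : Set S') L'.f} :=
          DFn_preim (f := fun z : S × S => (q z.1, q z.2)) (DFn_pair hq1 hq2) L'.line.rel
        have h2 := (hSS2.D _).1 h1
        have h3 : Rel (univ : Set S) (fun y => L'.f (q y)) =
            {z : S × S | (q z.1, q z.2) ∈ Rel (univ : Set S') L'.f} := by
          ext z
          exact ⟨fun hz => ⟨mem_univ _, mem_univ _, hz.2.2⟩,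
            fun hz => ⟨mem_univ _, mem_univ _, hz.2.2⟩⟩
        rw [h3]; exact h2
      add := hop (fun a b => a + b) L'.line.add
      mul := hop (fun a b => a * b) L'.line.mul
      onto := by
        intro k
        obtain ⟨y', -, hy'⟩ := L'.line.onto k
        obtain ⟨y, rfl⟩ := hqs y'
        exact ⟨y, mem_univ _, hy'⟩
      f0 := L'.line.f0
      f1 := L'.line.f1
      act := by
        intro g _
        obtain ⟨a, b, ha, hab⟩ := L'.line.act (p g) (Subgroup.mem_top _)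
        refine ⟨a, b, ha, fun y _ => ?_⟩
        change L'.f (q (g • y)) = a * L'.f (q y) + b
        rw [hpq]
        exact hab (q y) (mem_univ _)
      full := by
        intro a b ha
        obtain ⟨g', -, hg'⟩ := L'.line.full a b ha
        obtain ⟨g, rfl⟩ := hps g'
        refine ⟨g, Subgroup.mem_top _, fun y _ => ?_⟩
        change L'.f (q (g • y)) = a * L'.f (q y) + b
        rw [hpq]
        exact hg' (q y) (mem_univ _) }
  · intro hs
    exact Group.isSolvable_of_surjective hps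
  · rw [← hrk0, hrk]; exact Nat.le_add_right _ _
  · intro hi
    have hm1 : 1 ≤ m := by
      rcases Nat.eq_zero_or_pos m with h0 | h0
      · exfalso
        rw [hm] at h0
        exact hi (((l_RKA U').fin (hDfib (q o)) ⟨o, rfl⟩).1 h0)
      · exact h0
    rw [← hrk0, hrk]; omega
  · intro N hN
    exact (hSG.D _).1 (hH2 N hN).1

end Pool.Agent.H16.S
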